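import Pool.Agent.Helper51.SPMain

open Pool.Agent.Helper51.Mixed

/-- The answer to Q2 for every `0 ≤ α < 1`: for `0 < α < 1` the strong-type estimate holds for every
Calderon-Zygmund operator and every `1 < p < ∞`; for `α = 0` it fails, for an explicit operator and
for every operator whose kernel is bounded below by `c₀ / |x-y|ⁿ` on a cone. -/
theorem Pool.Agent.Results.MP_4229e6_an.StrongTypeAnswer.result (n : ℕ) (hn : 1 ≤ n) :
    (∀ T : Fn n → Fn n, IsCZO T → ∀ p α : ℝ, 1 < p → 0 < α → α < 1 → StrongBound T p α) ∧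
    (∃ T : Fn n → Fn n, IsCZO T ∧ ∀ p, 1 < p → ¬ StrongBound T p 0) ∧
    (∀ (T : Fn n → Fn n) (K : Pt n → Pt n → ℝ) (C δ c₀ : ℝ),
      IsBdd T → IsKernel K C δ → HasKernel T K → 0 < c₀ → ConePositive K c₀ →
      ∀ p, 1 < p → ¬ StrongBound T p 0) :=
  Pool.Agent.Helper51.Sp.answerStrong n hn
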